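import Pool.Agent.Helper41.SQC.Goals
import Pool.Agent.Helper84.SQ.CM

/-!
# Project SQ stage C (MP_bb32d1_al): CM1T, commutators of root vectors with F_k, central units
-/

set_option autoImplicit false

namespace Pool.Agent.Helper57.SQC

noncomputable section

open Pool.Agent.Helper19.SQ Pool.Agent.Helper84.SQ Pool.Agent.Helper41.SQC

theorem cen {R : Type} [Ring R] [Algebra ℂ R] (α : ℂ) (t k X : R) (ht : ∀ x, t * x = x * t)
    (hk : k * X = α • (X * k)) : (t * k) * X = α • (X * (t * k)) := by
  rw [mul_assoc, hk, mul_smul_comm, ← mul_assoc, ht X, mul_assoc]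

theorem cen2 {R : Type} [Ring R] (t k X : R) (ht : ∀ x, t * x = x * t) :
    X * (t * k) = t * (X * k) := by
  rw [← mul_assoc, ← ht X, mul_assoc]

theorem c_cm1t (hROOT : Pool.Agent.Helper19.SQ.S_ROOT) (hKWT : Pool.Agent.Helper41.SQC.S_KWT) :
    Pool.Agent.Helper41.SQC.S_CM1T := by
  intro R _ _ N l q t t' E F K hP hG
  have hq := par_q0 hP
  have hqq := par_qq hP
  have hR := hROOT R q E hq (par_q2 hP) hG.sE
  have hW := hKWT R N l q t t' E F K hP hG
  have hEF : ∀ i, i < N → E i * F i - F i * E i =
      (q - q⁻¹)⁻¹ • (t i * kk l K i (i + 1) - t' i * kk l K (i + 1) i) := by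
    intro i hi
    rw [hG.EF i hi]
    congr 3
    exact ((hW (i + 1) i (i + 1) (by omega)).2.2.2 i).symm
  -- (b)
  have hb : ∀ i j, i + 2 ≤ j → j ≤ N → rv q E i j * F i - F i * rv q E i j
      = -(t' i * (rv q E (i + 1) j * kk l K (i + 1) i)) := by
    intro i j hij hj
    have hX : rv q E (i + 1) j * F i = F i * rv q E (i + 1) j :=
      rv_comm q E (F i) (i + 1) j (by omega) fun t h1 _ => hG.EF_ne t i (by omega)
    have hk : kk l K i (i + 1) * rv q E (i + 1) j
        = q⁻¹ • (rv q E (i + 1) j * kk l K i (i + 1)) := by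
      refine kk_mul q hq l K _ i (i + 1) _ _ (hW i (i + 1) j (by omega)).1.1
        (hW (i + 1) (i + 1) j (by omega)).1.2 _ ?_
      have : ew i (i + 1) j + -ew (i + 1) (i + 1) j = -1 := by
        simp only [ew]; split_ifs <;> omega
      rw [this, zpow_neg_one]
    have hk' : kk l K (i + 1) i * rv q E (i + 1) j
        = q • (rv q E (i + 1) j * kk l K (i + 1) i) := by
      refine kk_mul q hq l K _ (i + 1) i _ _ (hW (i + 1) (i + 1) j (by omega)).1.1
        (hW i (i + 1) j (by omega)).1.2 _ ?_
      have : ew (i + 1) (i + 1) j + -ew i (i + 1) j = 1 := by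
        simp only [ew]; split_ifs <;> omega
      rw [this, zpow_one]
    rw [rv_rec q E i j hij, gen_left q _ _ _ _ _ _ _ _ hX (hEF i (by omega))
      (cen _ _ _ _ (hG.tc i) hk) (cen _ _ _ _ (hG.tc' i) hk'), sub_self,
      zero_smul, zero_sub, smul_neg, smul_smul, inv_mul_cancel₀ hqq, one_smul,
      cen2 _ _ _ (hG.tc' i)]
  refine ⟨?_, hb, ?_⟩
  · -- (a)
    have key : ∀ n i j k, k = i + 1 + n → k + 1 < j → j ≤ N →
        rv q E i j * F k = F k * rv q E i j := by
      intro n
      induction n with
      | zero =>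
        intro i j k hk hkj hj
        have hk' : k = i + 1 := by omega
        subst hk'
        rw [rv_rec q E i j (by omega)]
        refine inn_left q (-1) hq (E i) (rv q E (i + 1) j) (F (i + 1)) (rv q E (i + 2) j)
          (t' (i + 1) * kk l K (i + 2) (i + 1)) (hG.EF_ne i (i + 1) (by omega)) ?_ ?_ ?_
        · rw [hb (i + 1) j (by omega) hj, neg_one_smul, cen2 _ _ _ (hG.tc' (i + 1))]
        · exact hR.R2 i (i + 2) j (by omega) (Or.inl (by omega))
        · refine cen _ _ _ _ (hG.tc' (i + 1)) ?_
          rw [← rv_base q E i]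
          refine kk_mul q hq l K _ (i + 2) (i + 1) _ _ (hW (i + 2) i (i + 1) (by omega)).1.1
            (hW (i + 1) i (i + 1) (by omega)).1.2 _ ?_
          have : ew (i + 2) i (i + 1) + -ew (i + 1) i (i + 1) = 1 := by
            simp only [ew]; split_ifs <;> omega
          rw [this, zpow_one]
      | succ n ih =>
        intro i j k hk hkj hj
        have h1 := ih (i + 1) j k (by omega) hkj hj
        have h2 := hG.EF_ne i k (by omega)
        have c1 : Commute (rv q E (i + 1) j) (F k) := h1
        have c2 : Commute (E i) (F k) := h2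
        rw [rv_rec q E i j (by omega)]
        exact (c2.mul_left c1).sub_left ((c1.mul_left c2).smul_left _)
    intro i j k hij hj hki' hkj
    rcases lt_or_gt_of_ne hki' with h | h
    · exact rv_comm q E (F k) i j hij fun t h1 _ => hG.EF_ne t k (by omega)
    · rcases lt_or_gt_of_ne hkj with h' | h'
      · exact key (k - (i + 1)) i j k (by omega) h' hj
      · exact rv_comm q E (F k) i j hij fun t _ h2 => hG.EF_ne t k (by omega)
  · -- (c)
    intro i j hij hj
    have hX : rv q E i j * F j = F j * rv q E i j :=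
      rv_comm q E (F j) i j hij fun t _ h2 => hG.EF_ne t j (by omega)
    have hk : kk l K j (j + 1) * rv q E i j = q⁻¹ • (rv q E i j * kk l K j (j + 1)) := by
      refine kk_mul q hq l K _ j (j + 1) _ _ (hW j i j hij).1.1 (hW (j + 1) i j hij).1.2 _ ?_
      have : ew j i j + -ew (j + 1) i j = -1 := by
        simp only [ew]; split_ifs <;> omega
      rw [this, zpow_neg_one]
    have hk' : kk l K (j + 1) j * rv q E i j = q • (rv q E i j * kk l K (j + 1) j) := by
      refine kk_mul q hq l K _ (j + 1) j _ _ (hW (j + 1) i j hij).1.1 (hW j i j hij).1.2 _ ?_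
      have : ew (j + 1) i j + -ew j i j = 1 := by
        simp only [ew]; split_ifs <;> omega
      rw [this, zpow_one]
    rw [hR.R3 i j hij, gen_right q _ _ _ _ _ _ _ _ hX (hEF j (by omega))
      (cen _ _ _ _ (hG.tc j) hk) (cen _ _ _ _ (hG.tc' j) hk'),
      inv_mul_cancel₀ hq, sub_self, zero_smul, sub_zero, smul_smul, par_sc hP,
      cen2 _ _ _ (hG.tc j)]

end

end Pool.Agent.Helper57.SQC
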